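import Pool.Agent.MP_5f72fe_nt.H3.SpecC

/-! The transformation law of theta series with periodic coefficients. -/

namespace Pool.Agent.MP_5f72fe_nt.H60

open Complex Pool.Agent.MP_5f72fe_nt.H3
open scoped Real

theorem term_eq (n : ℤ) (z τ : ℂ) : jacobiTheta₂_term n z τ = E (n ^ 2 * τ / 2 + n * z) := by
  unfold jacobiTheta₂_term E
  congr 1
  ring

theorem sum_base {τ : ℂ} (hτ : 0 < τ.im) (z : ℂ) :
    Summable fun n : ℤ => ‖E (n ^ 2 * τ / 2 + n * z)‖ := by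
  have h := summable_norm_iff.2 ((summable_jacobiTheta₂_term_iff z τ).2 hτ)
  simpa only [term_eq] using h

theorem im_div {τ : ℂ} (hτ : 0 < τ.im) {M : ℕ} (hM : 0 < M) : 0 < (τ / M).im := by
  rw [div_natCast_im]
  positivity

theorem sum_bdd {τ : ℂ} (hτ : 0 < τ.im) (w : ℂ) {M : ℕ} (hM : 0 < M) {Y : ℤ → ℂ} {C : ℝ}
    (hY : ∀ b, ‖Y b‖ ≤ C) : Summable fun b : ℤ => ‖Y b * E (b ^ 2 * τ / (2 * M) + b * w)‖ := by
  refine Summable.of_nonneg_of_le (fun _ => norm_nonneg _) (fun b => ?_)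
    ((sum_base (im_div hτ hM) w).mul_left C)
  rw [norm_mul]
  have h : (b : ℂ) ^ 2 * τ / (2 * M) = b ^ 2 * (τ / M) / 2 := by ring
  rw [h]
  exact mul_le_mul_of_nonneg_right (hY b) (norm_nonneg _)

theorem per_mul {Y : ℤ → ℂ} {M : ℤ} (hY : ∀ b, Y (b + M) = Y b) (l b : ℤ) :
    Y (l * M + b) = Y b := by
  have h : Function.Periodic Y M := hY
  rw [add_comm]
  exact h.int_mul l b

theorem per_bdd {Y : ℤ → ℂ} {M : ℕ} (hM : 0 < M) (hY : ∀ b, Y (b + M) = Y b) :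
    ∃ C, ∀ b, ‖Y b‖ ≤ C := by
  refine ⟨∑ c ∈ Finset.Ico (0 : ℤ) M, ‖Y c‖, fun b => ?_⟩
  have h1 : Y b = Y (b % M) := by
    conv_lhs => rw [← Int.ediv_mul_add_emod b M]
    exact per_mul hY _ _
  have h2 : (0 : ℤ) < M := by exact_mod_cast hM
  rw [h1]
  exact Finset.single_le_sum (f := fun c => ‖Y c‖) (fun _ _ => norm_nonneg _)
    (Finset.mem_Ico.2 ⟨Int.emod_nonneg _ h2.ne', Int.emod_lt_of_pos _ h2⟩)

theorem tsum_split {M : ℕ} (hM : 0 < M) {f : ℤ → ℂ} (hf : Summable f) :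
    ∑' b, f b = ∑ c ∈ Finset.range M, ∑' l : ℤ, f (l * M + c) := by
  have : NeZero M := ⟨hM.ne'⟩
  have h1 := (Int.divModEquiv M).symm.tsum_eq f
  have h2 : Summable fun p => f ((Int.divModEquiv M).symm p) := (Equiv.summable_iff _).2 hf
  have h3 : ∀ p : ℤ × Fin M, (Int.divModEquiv M).symm p = p.1 * M + (p.2 : ℕ) := fun p => rfl
  rw [← h1, Summable.tsum_prod h2]
  simp only [tsum_fintype, h3]
  rw [Summable.tsum_finsetSum, Finset.sum_range fun c => ∑' l : ℤ, f (l * M + c)]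
  intro c _
  refine hf.comp_injective (i := fun l : ℤ => l * M + (c : ℕ)) fun l l' h => ?_
  have h4 : (M : ℤ) ≠ 0 := by exact_mod_cast hM.ne'
  exact mul_right_cancel₀ h4 (add_right_cancel h)

theorem one_class (hJ : RowJH) {M : ℕ} (hM : 0 < M) {τ : ℂ} (hτ : 0 < τ.im) (w : ℂ) (c : ℤ) :
    ∑' l : ℤ, E (((l * M + c : ℤ) : ℂ) ^ 2 * (-1 / τ) / (2 * M) + (l * M + c : ℤ) * (w / τ)) =
      E (M * w ^ 2 / (2 * τ)) * Jh τ / (√M : ℝ) *
        ∑' r : ℤ, E (-(c * r) / M) * E (r ^ 2 * τ / (2 * M) + r * w) := by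
  have hτ0 : τ ≠ 0 := fun h => by simp [h] at hτ
  have hM0 : (M : ℂ) ≠ 0 := by exact_mod_cast hM.ne'
  have h1 : ∀ l : ℤ, E (((l * M + c : ℤ) : ℂ) ^ 2 * (-1 / τ) / (2 * M) +
      (l * M + c : ℤ) * (w / τ)) = E (c ^ 2 * (-1 / τ) / (2 * M) + c * (w / τ)) *
        jacobiTheta₂_term l ((M * w - c) / τ) (M * (-1 / τ)) := by
    intro l
    rw [term_eq, ← hJ.add]
    congr 1
    push_cast
    field_simp
    ring
  have h2 : ∀ r : ℤ, E (-(c * r) / M) * E (r ^ 2 * τ / (2 * M) + r * w) =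
      jacobiTheta₂_term r (w - c / M) (τ / M) := by
    intro r
    rw [term_eq, ← hJ.add]
    congr 1
    ring
  simp only [h1, h2]
  rw [tsum_mul_left]
  change _ * jacobiTheta₂ _ _ = _ * jacobiTheta₂ _ _
  rw [jacobiTheta₂_functional_equation]
  have h3 : (M * w - c) / τ / (M * (-1 / τ)) = -(w - c / M) := by field_simp
  have h4 : -1 / (M * (-1 / τ)) = τ / M := by field_simp
  have h5 : (-I * (M * (-1 / τ))) ^ (1 / 2 : ℂ) = (√M : ℝ) * Jh (-1 / τ) :=
    hJ.scale M (-1 / τ) (by exact_mod_cast hM)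
  have h6 : cexp (-π * I * ((M * w - c) / τ) ^ 2 / (M * (-1 / τ))) =
      E ((M * w - c) ^ 2 / (2 * M * τ)) := by
    unfold E
    congr 1
    field_simp
  have h7 : E (c ^ 2 * (-1 / τ) / (2 * M) + c * (w / τ)) * E ((M * w - c) ^ 2 / (2 * M * τ)) =
      E (M * w ^ 2 / (2 * τ)) := by
    rw [← hJ.add]
    congr 1
    field_simp
    ring
  have h8 : Jh (-1 / τ) = (Jh τ)⁻¹ := eq_inv_of_mul_eq_one_right (hJ.inv τ hτ)
  rw [h3, h4, h5, h6, jacobiTheta₂_neg_left, ← h7, h8]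
  have h9 : ((√M : ℝ) : ℂ) ≠ 0 := by
    have : (0 : ℝ) < √M := Real.sqrt_pos.2 (by exact_mod_cast hM)
    exact_mod_cast this.ne'
  have h10 := hJ.jne τ hτ
  field_simp

theorem norm_E_real (hJ : RowJH) {x : ℂ} (h : x.im = 0) : ‖E x‖ = 1 := by
  rw [hJ.norm, h]
  simp

theorem law (hJ : RowJH) {M : ℕ} (hM : 0 < M) {Y : ℤ → ℂ} (hY : ∀ b, Y (b + M) = Y b) {τ : ℂ}
    (hτ : 0 < τ.im) (w : ℂ) :
    ∑' b : ℤ, Y b * E (b ^ 2 * (-1 / τ) / (2 * M) + b * (w / τ)) =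
      E (M * w ^ 2 / (2 * τ)) * Jh τ / (√M : ℝ) *
        ∑' r : ℤ, (∑ c ∈ Finset.range M, Y c * E (-(c * r) / M)) *
          E (r ^ 2 * τ / (2 * M) + r * w) := by
  obtain ⟨C, hC⟩ := per_bdd hM hY
  have hτ' : 0 < (-1 / τ).im := by
    have hτ0 : τ ≠ 0 := fun h => by simp [h] at hτ
    have := normSq_pos.2 hτ0
    rw [neg_div, one_div, neg_im, inv_im, neg_div, neg_neg]
    positivity
  rw [tsum_split hM (sum_bdd hτ' (w / τ) hM hC).of_norm]
  simp only [per_mul hY, Finset.sum_mul]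
  rw [Summable.tsum_finsetSum, Finset.mul_sum]
  · refine Finset.sum_congr rfl fun c _ => ?_
    rw [tsum_mul_left, one_class hJ hM hτ w c]
    simp only [mul_assoc (Y c)]
    rw [tsum_mul_left]
    push_cast
    ring
  · intro c _
    refine (sum_bdd hτ w hM (C := C) fun r => ?_).of_norm
    rw [norm_mul, norm_E_real hJ (by simp [div_natCast_im]), mul_one]
    exact hC c

theorem E_half (hJ : RowJH) (n : ℤ) : E (n / 2) = if n % 2 = 0 then 1 else -1 := by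
  obtain ⟨k, hk | hk⟩ := Int.even_or_odd' n
  · rw [if_pos (by omega), hk, ← hJ.int k]
    congr 1
    push_cast
    ring
  · have h : ((2 * k + 1 : ℤ) : ℂ) / 2 = k + 1 / 2 := by push_cast; ring
    rw [if_neg (by omega), hk, h, hJ.add, hJ.int, hJ.quarter.2.1, one_mul]

theorem coef (hJ : RowJH) {N : ℕ} (hN : Odd N) {X : ℤ → ℂ} (hX : ∀ b, X (b + N) = X b) {μ : ℕ}
    (hμ : μ < 2) (r : ℤ) :
    ∑ c ∈ Finset.range (2 * N), (if (c : ℤ) % 2 = μ then X c else 0) *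
      E (-(c * r) / (2 * N : ℕ)) =
      (if r % 2 = 0 then 1 else (-1) ^ μ) * ((√N : ℝ) * hat N X r) := by
  obtain ⟨k, hk⟩ := hN
  have hN0 : 0 < N := by omega
  have hN1 : (N : ℂ) ≠ 0 := by exact_mod_cast hN0.ne'
  have h9 : ((√N : ℝ) : ℂ) ≠ 0 := by
    have : (0 : ℝ) < √N := Real.sqrt_pos.2 (by exact_mod_cast hN0)
    exact_mod_cast this.ne'
  have hh : (((N + 1) / 2 : ℕ) : ℂ) = (N + 1) / 2 := by
    have h1 : (N + 1) / 2 = k + 1 := by omega
    rw [h1, hk]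
    push_cast
    ring
  set g : ℕ → ℂ := fun b => X b * E (-(b * r * ((N + 1) / 2 : ℕ)) / N) with hg
  have h1 : ∀ c : ℕ, (if (c : ℤ) % 2 = μ then X c else 0) * E (-(c * r) / (2 * N : ℕ)) =
      (if r % 2 = 0 then 1 else (-1) ^ μ) * if c % 2 = μ then g c else 0 := by
    intro c
    by_cases hc : c % 2 = μ
    · rw [if_pos (by omega), if_pos hc]
      have h2 : E (-(c * r) / (2 * N : ℕ)) =
          E (-(c * r * ((N + 1) / 2 : ℕ)) / N) * E (((c * r : ℤ) : ℂ) / 2) := by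
        rw [← hJ.add, hh]
        congr 1
        push_cast
        field_simp
        ring
      have h3 : (if (c * r : ℤ) % 2 = 0 then (1 : ℂ) else -1) =
          if r % 2 = 0 then 1 else (-1) ^ μ := by
        have h4 : (c : ℤ) % 2 = μ := by omega
        rw [Int.mul_emod, h4]
        rcases Int.emod_two_eq_zero_or_one r with h5 | h5 <;> interval_cases μ <;> simp [h5]
      rw [h2, E_half hJ, h3, hg]
      ring
    · rw [if_neg (by omega), if_neg hc, zero_mul, mul_zero]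
  have h2 : ∀ b : ℕ, g (N + b) = g b := by
    intro b
    have h3 : E (-((N + b : ℕ) * r * ((N + 1) / 2 : ℕ)) / N) =
        E (-(b * r * ((N + 1) / 2 : ℕ)) / N) * E ((-(r * ((N + 1) / 2 : ℕ)) : ℤ) : ℂ) := by
      rw [← hJ.add]
      congr 1
      generalize (N + 1) / 2 = h
      push_cast
      field_simp
      ring
    simp only [hg]
    rw [h3, hJ.int, mul_one, Nat.cast_add, add_comm, hX]
  simp only [h1]
  rw [← Finset.mul_sum, two_mul, Finset.sum_range_add, ← Finset.sum_add_distrib]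
  congr 1
  unfold hat
  rw [mul_div_cancel₀ _ h9]
  refine Finset.sum_congr rfl fun b _ => ?_
  rw [h2]
  by_cases hb : b % 2 = μ
  · rw [if_pos hb, if_neg (by omega), add_zero]
  · rw [if_neg hb, if_pos (by omega), zero_add]

theorem hat_bdd (hJ : RowJH) (N : ℕ) (X : ℤ → ℂ) : ∃ C, ∀ r, ‖hat N X r‖ ≤ C := by
  refine ⟨(∑ b ∈ Finset.range N, ‖X b‖) / ‖((√N : ℝ) : ℂ)‖, fun r => ?_⟩
  unfold hat
  rw [norm_div]
  refine div_le_div_of_nonneg_right ((norm_sum_le _ _).trans (le_of_eq ?_)) (norm_nonneg _)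
  refine Finset.sum_congr rfl fun b _ => ?_
  rw [norm_mul, norm_E_real hJ, mul_one]
  generalize (N + 1) / 2 = h
  simp [div_natCast_im]

theorem rowTH : OfTH := by
  intro hJ N X hN hX τ w hτ μ hμ
  have hN0 : 0 < N := hN.pos
  have hM : 0 < 2 * N := by omega
  have e : (2 * ((2 * N : ℕ) : ℂ)) = 4 * N := by push_cast; ring
  obtain ⟨C, hC⟩ := per_bdd hN0 hX
  refine ⟨by simpa only [e] using sum_bdd hτ w hM hC, ?_⟩
  have hY : ∀ b : ℤ, (if (b + (2 * N : ℕ)) % 2 = μ then X (b + (2 * N : ℕ)) else 0) =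
      if b % 2 = μ then X b else 0 := by
    intro b
    have h1 : (b + (2 * N : ℕ)) % 2 = b % 2 := by omega
    have h2 : b + (2 * N : ℕ) = b + N + N := by omega
    rw [h1, h2, hX, hX]
  have h := law hJ hM (Y := fun b => if b % 2 = μ then X b else 0) hY hτ w
  simp only [coef hJ hN hX hμ, e] at h
  obtain ⟨D, hD⟩ := hat_bdd hJ N X
  have hs : ∀ ν : ℕ, Summable fun r : ℤ =>
      if r % 2 = ν then hat N X r * E (r ^ 2 * τ / (4 * N) + r * w) else 0 := by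
    intro ν
    have h1 := (sum_bdd hτ w hM (Y := fun r => if r % 2 = ν then hat N X r else 0) (C := D)
      fun r => by
        split_ifs
        · exact hD r
        · simpa using (norm_nonneg _).trans (hD r)).of_norm
    simpa only [e, ite_mul, zero_mul] using h1
  have h2 : thX N (hat N X) 0 τ w + (-1) ^ μ * thX N (hat N X) 1 τ w =
      ∑' r : ℤ, (if r % 2 = 0 then 1 else (-1) ^ μ) *
        (hat N X r * E (r ^ 2 * τ / (4 * N) + r * w)) := by
    unfold thX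
    rw [← tsum_mul_left, ← (hs 0).tsum_add ((hs 1).mul_left _)]
    refine tsum_congr fun r => ?_
    rcases Int.emod_two_eq_zero_or_one r with h5 | h5 <;> simp [h5]
  have h3 : thX N X μ (-1 / τ) (w / τ) = ∑' b : ℤ, (if b % 2 = μ then X b else 0) *
      E (b ^ 2 * (-1 / τ) / (4 * N) + b * (w / τ)) := by
    unfold thX
    simp only [ite_mul, zero_mul]
  have h4 : ∑' r : ℤ, (if r % 2 = 0 then 1 else (-1) ^ μ) * ((√N : ℝ) * hat N X r) *
      E (r ^ 2 * τ / (4 * N) + r * w) = (√N : ℝ) * ∑' r : ℤ, (if r % 2 = 0 then 1 else (-1) ^ μ) *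
        (hat N X r * E (r ^ 2 * τ / (4 * N) + r * w)) := by
    rw [← tsum_mul_left]
    exact tsum_congr fun r => by ring
  rw [h2, h3, h, h4]
  have h5 : ((2 * N : ℕ) : ℂ) * w ^ 2 / (2 * τ) = N * w ^ 2 / τ := by
    push_cast
    rw [mul_assoc, mul_div_mul_left _ _ two_ne_zero]
  have h6 : (√((2 * N : ℕ) : ℝ) : ℝ) = √2 * √N := by
    push_cast
    rw [Real.sqrt_mul (by norm_num)]
  have h9 : ((√N : ℝ) : ℂ) ≠ 0 := by
    have : (0 : ℝ) < √N := Real.sqrt_pos.2 (by exact_mod_cast hN0)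
    exact_mod_cast this.ne'
  rw [h5, h6, ofReal_mul]
  field_simp

end Pool.Agent.MP_5f72fe_nt.H60
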